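import Pool.Agent.W4helper48.JN.Stm

/-!
# Project JN, piece LINK
-/

set_option autoImplicit false

namespace Pool.Agent.W4helper85.JN

open Set Pool.Agent.W4helper48.JN

abbrev E3 := EuclideanSpace ℝ (Fin 3)

/-- determinant -/
def D3 (a b c : E3) : ℝ :=
  a 0 * (b 1 * c 2 - b 2 * c 1) - a 1 * (b 0 * c 2 - b 2 * c 0) + a 2 * (b 0 * c 1 - b 1 * c 0)

theorem D3_cyc (a b c : E3) : D3 a b c = D3 b c a := by
  unfold D3; ring

theorem cramer (a u v z : E3) :
    D3 u v z • a - D3 a v z • u + D3 a u z • v - D3 a u v • z = 0 := by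
  ext i
  fin_cases i <;> simp [D3] <;> ring

/-- the determinant as a function of the third vector -/
noncomputable def lD (a b : E3) : E3 →L[ℝ] ℝ :=
  fl ![a 1 * b 2 - a 2 * b 1, a 2 * b 0 - a 0 * b 2, a 0 * b 1 - a 1 * b 0]

theorem lD_apply (a b c : E3) : lD a b c = D3 a b c := by
  simp [lD, fl, D3, Fin.sum_univ_three]
  ring

section vectors

variable {W : Type} {x : W → E3} {l : W → E3 →L[ℝ] ℝ}

theorem ne_zero (h0 : ∀ v, l v (x v) = 0) (hpos : ∀ v u, u ≠ v → 0 < l v (x u)) {a b c : W}
    (hab : a ≠ b) (hac : a ≠ c) (hbc : b ≠ c) : D3 (x a) (x b) (x c) ≠ 0 := by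
  intro h
  have hdet : (Matrix.of ![fun i => x a i, fun i => x b i, fun i => x c i] :
      Matrix (Fin 3) (Fin 3) ℝ).det = 0 := by
    rw [Matrix.det_fin_three, ← h]
    simp [D3]
    ring
  obtain ⟨v, hv, hv0⟩ := Matrix.exists_vecMul_eq_zero_iff.2 hdet
  have hrel : v 0 • x a + v 1 • x b + v 2 • x c = 0 := by
    ext i
    have := congrFun hv0 i
    simpa [Matrix.vecMul, dotProduct, Fin.sum_univ_three] using this
  have ea := congrArg (l a) hrel
  have eb := congrArg (l b) hrel
  have ec := congrArg (l c) hrel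
  simp only [map_add, map_smul, smul_eq_mul, h0, map_zero, mul_zero, zero_add, add_zero] at ea eb ec
  have p1 := hpos a b hab.symm
  have p2 := hpos a c hac.symm
  have p3 := hpos b a hab
  have p4 := hpos b c hbc.symm
  have p5 := hpos c a hac
  have p6 := hpos c b hbc
  -- `v 1 * v 2 ≤ 0`, `v 0 * v 2 ≤ 0`, `v 0 * v 1 ≤ 0`
  have key : ∀ s t r q : ℝ, 0 < s → 0 < t → r * s + q * t = 0 → (r ≤ 0 ∧ 0 ≤ q) ∨ (0 ≤ r ∧ q ≤ 0) := by
    intro s t r q hs ht h
    rcases le_total r 0 with hr | hr
    · left
      refine ⟨hr, ?_⟩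
      by_contra hq
      push Not at hq
      nlinarith [mul_nonneg (neg_nonneg.2 hr) hs.le, mul_pos (neg_pos.2 hq) ht]
    · right
      refine ⟨hr, ?_⟩
      by_contra hq
      push Not at hq
      nlinarith [mul_nonneg hr hs.le, mul_pos hq ht]
  have zero_of : ∀ s t r q : ℝ, 0 < s → 0 < t → r * s + q * t = 0 → r = 0 → q = 0 := by
    intro s t r q hs ht h hr
    rw [hr, zero_mul, zero_add] at h
    exact (mul_eq_zero.1 h).resolve_right ht.ne'
  have k1 := key _ _ _ _ p1 p2 ea
  have k2 := key _ _ _ _ p3 p4 eb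
  have k3 := key _ _ _ _ p5 p6 ec
  have hzero : v 0 = 0 ∨ v 1 = 0 ∨ v 2 = 0 := by
    by_contra hcon
    push Not at hcon
    obtain ⟨c0, c1, c2⟩ := hcon
    rcases k1 with ⟨q1, q2⟩ | ⟨q1, q2⟩ <;> rcases k2 with ⟨q3, q4⟩ | ⟨q3, q4⟩ <;>
      rcases k3 with ⟨q5, q6⟩ | ⟨q5, q6⟩ <;>
      first
        | exact c0 (le_antisymm (by assumption) (by assumption))
        | exact c1 (le_antisymm (by assumption) (by assumption))
        | exact c2 (le_antisymm (by assumption) (by assumption))
  have hall : v 0 = 0 ∧ v 1 = 0 ∧ v 2 = 0 := by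
    rcases hzero with h' | h' | h'
    · exact ⟨h', zero_of _ _ _ _ p5 p6 ec h', zero_of _ _ _ _ p3 p4 eb h'⟩
    · have h2 := zero_of _ _ _ _ p1 p2 ea h'
      refine ⟨?_, h', h2⟩
      rw [h', zero_mul, add_zero] at ec
      exact (mul_eq_zero.1 ec).resolve_right p5.ne'
    · rw [h', zero_mul, add_zero] at ea eb
      exact ⟨(mul_eq_zero.1 eb).resolve_right p3.ne', (mul_eq_zero.1 ea).resolve_right p1.ne', h'⟩
  apply hv
  ext i
  fin_cases i
  · exact hall.1
  · exact hall.2.1
  · exact hall.2.2

theorem exists_order [Fintype W] (hW : 3 ≤ Fintype.card W)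
    (h0 : ∀ v, l v (x v) = 0) (hpos : ∀ v u, u ≠ v → 0 < l v (x u)) :
    ∃ e : W ≃ Fin (Fintype.card W), ∀ a b c, e a < e b → e b < e c →
      0 < D3 (x a) (x b) (x c) := by
  classical
  obtain ⟨v0, u0, hvu⟩ := Fintype.exists_pair_of_one_lt_card (α := W) (by omega)
  set s : W → ℝ := fun u => D3 (x v0) (x u0) (x u) / l v0 (x u) with hs
  have hl : ∀ u, u ≠ v0 → 0 < l v0 (x u) := fun u hu => hpos v0 u hu
  have key : ∀ u v, u ≠ v0 → v ≠ v0 → D3 (x v0) (x u) (x v) * l v0 (x u0) =
      l v0 (x u) * l v0 (x v) * (s v - s u) := by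
    intro u v hu hv
    have h := congrArg (l v0) (cramer (x v0) (x u0) (x u) (x v))
    simp only [map_add, map_sub, map_smul, smul_eq_mul, h0, map_zero, mul_zero] at h
    have e1 : s v * l v0 (x v) = D3 (x v0) (x u0) (x v) := div_mul_cancel₀ _ (hl v hv).ne'
    have e2 : s u * l v0 (x u) = D3 (x v0) (x u0) (x u) := div_mul_cancel₀ _ (hl u hu).ne'
    rw [← e1, ← e2] at h
    linear_combination -h
  have hu0 : 0 < l v0 (x u0) := hl u0 hvu.symm
  set f : W → WithBot ℝ := fun v => if v = v0 then ⊥ else ((s v : ℝ) : WithBot ℝ) with hf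
  have fv0 : f v0 = ⊥ := by simp [hf]
  have fne : ∀ v, v ≠ v0 → f v = ((s v : ℝ) : WithBot ℝ) := fun v hv => by simp [hf, hv]
  have hinj : Function.Injective f := by
    intro u v huv
    by_cases hu : u = v0
    · by_cases hv : v = v0
      · rw [hu, hv]
      · rw [hu, fv0, fne v hv] at huv
        exact absurd huv.symm (WithBot.coe_ne_bot)
    · by_cases hv : v = v0
      · rw [hv, fv0, fne u hu] at huv
        exact absurd huv (WithBot.coe_ne_bot)
      · rw [fne u hu, fne v hv] at huv
        have h1 : s u = s v := WithBot.coe_injective huv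
        by_contra hne
        have h2 := key u v hu hv
        rw [h1, sub_self, mul_zero] at h2
        exact ne_zero h0 hpos (Ne.symm hu) (Ne.symm hv) hne
          ((mul_eq_zero.1 h2).resolve_right hu0.ne')
  let _ : LinearOrder W := LinearOrder.lift' f hinj
  let iso : Fin (Fintype.card W) ≃o W := Fintype.orderIsoFinOfCardEq W rfl
  have hlt : ∀ a b, iso.symm a < iso.symm b ↔ f a < f b := by
    intro a b
    rw [OrderIso.lt_iff_lt]
    exact Iff.rfl
  have hbase : ∀ a b, a ≠ v0 → b ≠ v0 → f a < f b → 0 < D3 (x v0) (x a) (x b) := by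
    intro a b ha hb hab
    rw [fne a ha, fne b hb, WithBot.coe_lt_coe] at hab
    have h1 := key a b ha hb
    have h2 : 0 < l v0 (x a) * l v0 (x b) * (s b - s a) :=
      mul_pos (mul_pos (hl a ha) (hl b hb)) (sub_pos.2 hab)
    rw [← h1] at h2
    exact (mul_pos_iff_of_pos_right hu0).1 h2
  refine ⟨iso.symm.toEquiv, fun a b c hab hbc => ?_⟩
  have hab' : f a < f b := (hlt a b).1 hab
  have hbc' : f b < f c := (hlt b c).1 hbc
  have hb : b ≠ v0 := by
    rintro rfl
    rw [fv0] at hab'
    exact absurd hab' not_lt_bot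
  have hc : c ≠ v0 := by
    rintro rfl
    rw [fv0] at hbc'
    exact absurd hbc' not_lt_bot
  by_cases ha : a = v0
  · rw [ha]
    exact hbase b c hb hc hbc'
  · have h1 := hbase a b ha hb hab'
    have h2 := hbase b c hb hc hbc'
    have h := congrArg (l b) (cramer (x v0) (x a) (x b) (x c))
    simp only [map_add, map_sub, map_smul, smul_eq_mul, h0, map_zero, mul_zero] at h
    have hba : a ≠ b := fun h' => by rw [h'] at hab'; exact lt_irrefl _ hab'
    have hbc2 : c ≠ b := fun h' => by rw [h'] at hbc'; exact lt_irrefl _ hbc'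
    have p1 := hpos b a hba
    have p2 := hpos b c hbc2
    have p3 := hpos b v0 hb.symm
    have h3 : D3 (x a) (x b) (x c) * l b (x v0) =
        D3 (x v0) (x b) (x c) * l b (x a) + D3 (x v0) (x a) (x b) * l b (x c) := by
      linear_combination h
    have h4 : 0 < D3 (x a) (x b) (x c) * l b (x v0) := by
      rw [h3]
      exact add_pos (mul_pos h2 p1) (mul_pos h1 p2)
    exact (mul_pos_iff_of_pos_right p3).1 h4

end vectors

/-- a polytope is the convex hull of its vertices -/
theorem hull_range {P : Set E3} {U : Type} {p : U → E3}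
    (hS : ∃ S : Finset E3, P = convexHull ℝ (S : Set _)) (hr : range p = P.extremePoints ℝ) :
    P = convexHull ℝ (range p) := by
  obtain ⟨S, hS⟩ := hS
  have hcomp : IsCompact P := by
    rw [hS]
    exact S.finite_toSet.isCompact_convexHull ℝ
  have hconv : Convex ℝ P := by
    rw [hS]
    exact convex_convexHull _ _
  have hfin : (P.extremePoints ℝ).Finite := by
    refine S.finite_toSet.subset ?_
    rw [hS]
    exact extremePoints_convexHull_subset
  have h := closure_convexHull_extremePoints hcomp hconv
  have hcl : IsClosed (convexHull ℝ (P.extremePoints ℝ)) := hfin.isClosed_convexHull ℝ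
  rw [hcl.closure_eq] at h
  rw [hr]
  exact h.symm


theorem card_ge {W : Type} [Fintype W] {p : Option W → E3}
    (h : (interior (convexHull ℝ (range p))).Nonempty) : 3 ≤ Fintype.card W := by
  rw [interior_convexHull_nonempty_iff_affineSpan_eq_top] at h
  have h1 := finrank_vectorSpan_range_le ℝ p (n := Fintype.card W) (by simp)
  rw [← direction_affineSpan, h, AffineSubspace.direction_top, finrank_top] at h1
  simpa using h1

/-- an edge at the vertex `w`: functional -/
theorem edge_functional {P : Set E3} {U : Type} {p : U → E3} (hP : P = convexHull ℝ (range p))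
    (hinj : Function.Injective p) (hr : range p = P.extremePoints ℝ) {w v : U}
    (hexp : IsExposed ℝ P (segment ℝ (p w) (p v))) :
    ∃ l : E3 →L[ℝ] ℝ, l (p v - p w) = 0 ∧ ∀ u, u ≠ w → u ≠ v → 0 < l (p u - p w) := by
  have hmemP : ∀ u, p u ∈ P := fun u => by
    rw [hP]; exact subset_convexHull ℝ _ (mem_range_self u)
  obtain ⟨l, hl⟩ := hexp ⟨p w, left_mem_segment ℝ _ _⟩
  have hw := left_mem_segment ℝ (p w) (p v)
  have hv := right_mem_segment ℝ (p w) (p v)
  rw [hl] at hw hv
  have hwv : l (p w) = l (p v) := le_antisymm (hv.2 _ hw.1) (hw.2 _ hv.1)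
  refine ⟨-l, ?_, fun u huw huv => ?_⟩
  · rw [map_sub]
    simp only [_root_.neg_apply]
    rw [hwv]; ring
  · rw [map_sub]
    simp only [_root_.neg_apply]
    have hle : l (p u) ≤ l (p w) := hw.2 _ (hmemP u)
    have hne : l (p u) ≠ l (p w) := by
      intro he
      have hmem : p u ∈ segment ℝ (p w) (p v) := by
        rw [hl]
        refine ⟨hmemP u, fun y hy => ?_⟩
        rw [he]
        exact hw.2 y hy
      have h1 : p u ∈ P.extremePoints ℝ := by
        rw [← hr]; exact mem_range_self u
      rcases (mem_extremePoints_iff_forall_segment.1 h1).2 _ (hmemP w) _ (hmemP v) hmem with h | h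
      · exact huw (hinj h.symm)
      · exact huv (hinj h.symm)
    have := lt_of_le_of_ne hle hne
    linarith

theorem exists_large {W : Type} [Finite W] (m t : W → ℝ) (T : Set W) (hm : ∀ z ∈ T, 0 < m z) :
    ∃ A : ℝ, ∀ z ∈ T, t z < A * m z := by
  obtain ⟨M, hM⟩ := Finite.exists_le (fun z => t z / m z)
  refine ⟨M + 1, fun z hz => ?_⟩
  have h1 := hm z hz
  have h2 := hM z
  rw [div_le_iff₀ h1] at h2
  nlinarith

theorem adj_of {W : Type} [Fintype W] {P : Set E3} {p : Option W → E3}
    (hP : P = convexHull ℝ (range p)) {u v z0 : W}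
    (hpos : ∀ z, z ≠ u → z ≠ v →
      0 < D3 (p (some u) - p none) (p (some v) - p none) (p (some z) - p none))
    (hu : z0 ≠ u) (hv : z0 ≠ v) :
    IsExposed ℝ P (segment ℝ (p (some u)) (p (some v))) := by
  set a := p (some u) - p none with ha
  set b := p (some v) - p none with hb
  set c := p (some z0) - p none with hc
  have hD : 0 < D3 a b c := hpos z0 hu hv
  set θ : E3 →L[ℝ] ℝ := (D3 a b c)⁻¹ • (lD b c + lD c a) with hθ
  have hθa : θ a = 1 := by
    simp only [hθ, smul_apply, add_apply, lD_apply,
      smul_eq_mul]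
    have : D3 b c a + D3 c a a = D3 a b c := by unfold D3; ring
    rw [this]
    exact inv_mul_cancel₀ hD.ne'
  have hθb : θ b = 1 := by
    simp only [hθ, smul_apply, add_apply, lD_apply,
      smul_eq_mul]
    have : D3 b c b + D3 c a b = D3 a b c := by unfold D3; ring
    rw [this]
    exact inv_mul_cancel₀ hD.ne'
  obtain ⟨A, hA⟩ := exists_large (fun z => D3 a b (p (some z) - p none))
    (fun z => θ (p (some z) - p none)) {z | z ≠ u ∧ z ≠ v} (fun z hz => hpos z hz.1 hz.2)
  have hval : ∀ y, (A • lD a b - θ) y + (1 - (A • lD a b - θ) (p none)) =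
      A * D3 a b (y - p none) - θ (y - p none) + 1 := by
    intro y
    simp only [sub_apply, smul_apply, smul_eq_mul,
      ← lD_apply, map_sub]
    ring
  rw [hP]
  refine exposed_segment p (some u) (some v) (A • lD a b - θ)
    (1 - (A • lD a b - θ) (p none)) ?_ ?_ ?_
  · rw [hval, ← ha, hθa]
    have : D3 a b a = 0 := by unfold D3; ring
    rw [this]; ring
  · rw [hval, ← hb, hθb]
    have : D3 a b b = 0 := by unfold D3; ring
    rw [this]; ring
  · intro w hwu hwv
    rw [hval]
    cases w with
    | none =>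
      rw [sub_self, map_zero, ← lD_apply, map_zero]
      norm_num
    | some z =>
      have h1 : z ≠ u := fun h => hwu (by rw [h])
      have h2 : z ≠ v := fun h => hwv (by rw [h])
      have h3 : θ (p (some z) - p none) < A * D3 a b (p (some z) - p none) := hA z ⟨h1, h2⟩
      linarith

/-- crossing -/
theorem not_cross {W : Type} [Fintype W] {p : Option W → E3} (hinj : Function.Injective p)
    (hext : range p = (convexHull ℝ (range p)).extremePoints ℝ) {i j k m : W}
    (hij : i ≠ j) (hjk : j ≠ k) {α β γ δ : ℝ}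
    (hγ : 0 < γ) (hδ : 0 < δ) (hjm : j ≠ m)
    (hrel : α • (p (some i) - p none) + β • (p (some k) - p none) =
      γ • (p (some j) - p none) + δ • (p (some m) - p none)) (hle : γ + δ ≤ α + β) :
    ¬ IsExposed ℝ (convexHull ℝ (range p)) (segment ℝ (p (some i)) (p (some k))) := by
  classical
  refine not_exposed p hinj hext (some i) (some k) (some j) (by simpa using hij.symm)
    (by simpa using hjk) α β
    (fun x => (if x = some j then γ else 0) + (if x = some m then δ else 0) +
      (if x = none then α + β - (γ + δ) else 0)) ?_ ?_ ?_ ?_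
  · intro x
    have h1 : (0 : ℝ) ≤ if x = some j then γ else 0 := by split_ifs <;> linarith
    have h2 : (0 : ℝ) ≤ if x = some m then δ else 0 := by split_ifs <;> linarith
    have h3 : (0 : ℝ) ≤ if x = none then α + β - (γ + δ) else 0 := by split_ifs <;> linarith
    show 0 ≤ _ + _ + _
    linarith
  · simp [hjm, hγ]
  · simp only [Finset.sum_add_distrib, Finset.sum_ite_eq', Finset.mem_univ, if_true]
    ring
  · simp only [add_smul, ite_smul, zero_smul, Finset.sum_add_distrib, Finset.sum_ite_eq',
      Finset.mem_univ, if_true]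
    have h := hrel
    simp only [smul_sub] at h
    simp only [sub_smul, add_smul]
    have e : α • p (some i) + β • p (some k) =
      (α • p (some i) - α • p none + (β • p (some k) - β • p none)) +
        (α • p none + β • p none) := by abel
    rw [e, h]
    abel

/-- PIECE LINK. -/
theorem p_link : LinkStm := by
  intro W _ H hadj hpoly
  obtain ⟨P, p, hS, hint, hinj, hr, hedge⟩ := hpoly
  have hP : P = convexHull ℝ (range p) := hull_range hS hr
  have hcard : 3 ≤ Fintype.card W := by
    rw [hP] at hint
    exact card_ge hint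
  have hfun : ∀ v : W, ∃ l : E3 →L[ℝ] ℝ, l (p (some v) - p none) = 0 ∧
      ∀ u : W, u ≠ v → 0 < l (p (some u) - p none) := by
    intro v
    obtain ⟨l, h1, h2⟩ := edge_functional hP hinj hr ((hedge none (some v)).1 (hadj v)).2
    exact ⟨l, h1, fun u hu => h2 (some u) (by simp) (by simpa using hu)⟩
  choose l h0 hpos using hfun
  obtain ⟨e, he⟩ := exists_order (x := fun v => p (some v) - p none) hcard h0 hpos
  have hext : range p = (convexHull ℝ (range p)).extremePoints ℝ := by rw [← hP]; exact hr
  have hthird : ∀ u v : W, ∃ z, z ≠ u ∧ z ≠ v := by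
    classical
    intro u v
    by_contra hcon
    push Not at hcon
    have : (Finset.univ : Finset W) ⊆ {u, v} := by
      intro z _
      by_cases hz : z = u
      · simp [hz]
      · simp [hcon z hz]
    have h2 := Finset.card_le_card this
    have h3 : ({u, v} : Finset W).card ≤ 2 := Finset.card_le_two
    rw [Finset.card_univ] at h2
    omega
  have hne : ∀ u v : W, e u ≠ e v → (some u : Option W) ≠ some v := by
    intro u v h h'
    exact h (by rw [Option.some_injective _ h'])
  refine ⟨Fintype.card W, e, hcard, ?_, ?_, ?_⟩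
  · intro u v huv
    show H.Adj (some u) (some v)
    rw [hedge]
    refine ⟨hne u v (fun h => by rw [h] at huv; omega), ?_⟩
    obtain ⟨z0, hz1, hz2⟩ := hthird u v
    refine adj_of hP (z0 := z0) (fun z hzu hzv => ?_) hz1 hz2
    have h1 : (e z).val ≠ (e u).val := fun h => hzu (e.injective (Fin.ext h))
    have h2 : (e z).val ≠ (e v).val := fun h => hzv (e.injective (Fin.ext h))
    rcases Nat.lt_or_gt_of_ne h1 with h | h
    · rw [← D3_cyc]
      exact he z u v (Fin.lt_def.2 h) (Fin.lt_def.2 (by omega))
    · exact he u v z (Fin.lt_def.2 (by omega)) (Fin.lt_def.2 (by omega))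
  · intro u v hu hv
    show H.Adj (some u) (some v)
    refine SimpleGraph.Adj.symm ?_
    rw [hedge]
    refine ⟨hne v u (fun h => by rw [h] at hv; omega), ?_⟩
    obtain ⟨z0, hz1, hz2⟩ := hthird v u
    refine adj_of hP (z0 := z0) (fun z hzv hzu => ?_) hz1 hz2
    have h1 : (e z).val ≠ (e u).val := fun h => hzu (e.injective (Fin.ext h))
    have h2 : (e z).val ≠ (e v).val := fun h => hzv (e.injective (Fin.ext h))
    have h3 := (e z).isLt
    rw [D3_cyc]
    exact he u z v (Fin.lt_def.2 (by omega)) (Fin.lt_def.2 (by omega))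
  · intro a b c d hab hbc hcd hac hbd
    have hac' : H.Adj (some a) (some c) := hac
    have hbd' : H.Adj (some b) (some d) := hbd
    have E1 := ((hedge _ _).1 hac').2
    have E2 := ((hedge _ _).1 hbd').2
    rw [hP] at E1 E2
    have q1 := he b c d hbc hcd
    have q2 := he a c d (hab.trans hbc) hcd
    have q3 := he a b d hab (hbc.trans hcd)
    have q4 := he a b c hab hbc
    have hcr := cramer (p (some a) - p none) (p (some b) - p none) (p (some c) - p none)
      (p (some d) - p none)
    have n1 : a ≠ b := fun h => by rw [h] at hab; exact lt_irrefl _ hab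
    have n2 : b ≠ c := fun h => by rw [h] at hbc; exact lt_irrefl _ hbc
    have n3 : c ≠ d := fun h => by rw [h] at hcd; exact lt_irrefl _ hcd
    have n4 : a ≠ d := fun h => by
      rw [h] at hab; exact lt_irrefl _ (hab.trans (hbc.trans hcd))
    have n5 : b ≠ d := fun h => by rw [h] at hbc; exact lt_irrefl _ (hbc.trans hcd)
    have n6 : a ≠ c := fun h => by rw [h] at hab; exact lt_irrefl _ (hab.trans hbc)
    have hrel : D3 (p (some b) - p none) (p (some c) - p none) (p (some d) - p none) •
          (p (some a) - p none) +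
        D3 (p (some a) - p none) (p (some b) - p none) (p (some d) - p none) •
          (p (some c) - p none) =
        D3 (p (some a) - p none) (p (some c) - p none) (p (some d) - p none) •
          (p (some b) - p none) +
        D3 (p (some a) - p none) (p (some b) - p none) (p (some c) - p none) •
          (p (some d) - p none) := by
      rw [← sub_eq_zero, ← hcr]
      abel
    rcases le_total
      (D3 (p (some a) - p none) (p (some c) - p none) (p (some d) - p none) +
        D3 (p (some a) - p none) (p (some b) - p none) (p (some c) - p none))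
      (D3 (p (some b) - p none) (p (some c) - p none) (p (some d) - p none) +
        D3 (p (some a) - p none) (p (some b) - p none) (p (some d) - p none)) with hle | hle
    · exact not_cross hinj hext n1 n2 q2 q4 n5 hrel hle E1
    · exact not_cross hinj hext n1.symm n4 q1 q3 n6 hrel.symm hle E2

end Pool.Agent.W4helper85.JN
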